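import Pool.Agent.helper34.AC.Spec

set_option autoImplicit false

namespace Pool.Agent.helper34.AC

/-- partitions into stable sets: sum over the blocks -/
lemma CNE_swap (hM : MRK_stmt) {V : Type} [DecidableEq V] (G : SimpleGraph V) (U : Finset V)
    (h : Finset V → ℝ) (hblock : ∀ P ∈ col G U, ∀ S ∈ P, S ∈ st G ∅ U ∧ S.Nonempty)
    (hst : ∀ S ∈ st G ∅ U, Stab G S ∧ S ⊆ U) :
    ∑ P ∈ col G U, ∑ S ∈ P, h S = ∑ S ∈ (st G ∅ U).erase ∅, h S * N G (U \ S) := by
  classical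
  have h1 : ∀ P ∈ col G U, ∑ S ∈ P, h S = ∑ S ∈ (st G ∅ U).erase ∅, if S ∈ P then h S else 0 := by
    intro P hP
    rw [← Finset.sum_filter]
    refine Finset.sum_congr ?_ fun _ _ => rfl
    ext S
    rw [Finset.mem_filter, Finset.mem_erase]
    constructor
    · intro hS
      exact ⟨⟨(hblock P hP S hS).2.ne_empty, (hblock P hP S hS).1⟩, hS⟩
    · exact fun hS => hS.2
  rw [Finset.sum_congr rfl h1, Finset.sum_comm]
  refine Finset.sum_congr rfl fun S hS => ?_
  rw [Finset.mem_erase] at hS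
  obtain ⟨hs1, hs2⟩ := hst S hS.2
  have h2 := hM V G U S (fun _ => 1) hs2 (Finset.nonempty_iff_ne_empty.mpr hS.1) hs1
  rw [← Finset.sum_filter, Finset.sum_const, nsmul_eq_mul]
  rw [Finset.sum_const, Finset.sum_const, nsmul_eq_mul, nsmul_eq_mul, mul_one, mul_one] at h2
  rw [h2, N, mul_comm]

lemma CNE_mem_col {V : Type} {G : SimpleGraph V} {U : Finset V} {P : Finset (Finset V)} :
    P ∈ col G U ↔ IsCol G U P := by
  classical
  rw [col, Finset.mem_filter, Finset.mem_powerset]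
  constructor
  · exact fun h => h.2
  · intro h
    refine ⟨fun S hS => ?_, h⟩
    rw [Finset.mem_powerset]
    exact (h.1 S hS).2.1

lemma CNE_mem_st {V : Type} {G : SimpleGraph V} {U S : Finset V} :
    S ∈ st G ∅ U ↔ S ⊆ U ∧ Stab G S := by
  classical
  rw [st, Finset.mem_filter, Finset.mem_powerset]
  constructor
  · rintro ⟨h1, h2⟩
    exact ⟨h1, fun x hx y hy => (h2 x hx).1 y hy⟩
  · rintro ⟨h1, h2⟩
    exact ⟨h1, fun x hx => ⟨fun y hy => h2 x hx y hy, fun y hy => absurd hy (Finset.notMem_empty y)⟩⟩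

lemma CNE_sum_card {V : Type} [DecidableEq V] {G : SimpleGraph V} {U : Finset V}
    {P : Finset (Finset V)} (hP : IsCol G U P) : ∑ S ∈ P, (S.card : ℝ) = U.card := by
  classical
  have h1 : ∀ S ∈ P, S.card = ∑ v ∈ U, if v ∈ S then 1 else 0 := by
    intro S hS
    rw [← Finset.sum_filter, Finset.sum_const, smul_eq_mul, mul_one]
    congr 1
    ext v
    rw [Finset.mem_filter]
    exact ⟨fun h => ⟨(hP.1 S hS).2.1 h, h⟩, fun h => h.2⟩
  have h2 : ∑ S ∈ P, S.card = U.card := by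
    rw [Finset.sum_congr rfl h1, Finset.sum_comm]
    have h3 : ∀ v ∈ U, (∑ S ∈ P, if v ∈ S then 1 else 0) = 1 := by
      intro v hv
      obtain ⟨S, ⟨hS, hvS⟩, huniq⟩ := hP.2 v hv
      rw [← Finset.sum_filter, Finset.sum_const, smul_eq_mul, mul_one, Finset.card_eq_one]
      refine ⟨S, ?_⟩
      ext T
      rw [Finset.mem_filter, Finset.mem_singleton]
      constructor
      · rintro ⟨hT, hvT⟩
        exact huniq T ⟨hT, hvT⟩
      · rintro rfl
        exact ⟨hS, hvS⟩
    rw [Finset.sum_congr rfl h3, Finset.sum_const, smul_eq_mul, mul_one]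
  exact_mod_cast h2

theorem CNE (hM : MRK_stmt) : CNE_stmt := by
  intro V _ G U
  classical
  have hblock : ∀ P ∈ col G U, ∀ S ∈ P, S ∈ st G ∅ U ∧ S.Nonempty := by
    intro P hP S hS
    have h := (CNE_mem_col.mp hP).1 S hS
    exact ⟨CNE_mem_st.mpr ⟨h.2.1, h.2.2⟩, h.1⟩
  have hst : ∀ S ∈ st G ∅ U, Stab G S ∧ S ⊆ U := fun S hS =>
    ⟨(CNE_mem_st.mp hS).2, (CNE_mem_st.mp hS).1⟩
  have hempty : ∅ ∈ st G ∅ U :=
    CNE_mem_st.mpr ⟨Finset.empty_subset _, fun x hx => absurd hx (Finset.notMem_empty x)⟩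
  constructor
  · have h1 := CNE_swap hM G U (fun _ => 1) hblock hst
    have h2 : N1 G U = N G U + ∑ P ∈ col G U, ∑ _S ∈ P, (1 : ℝ) := by
      rw [N1, N, Finset.sum_add_distrib, add_comm]
      congr 1
      · rw [Finset.sum_const, nsmul_eq_mul, mul_one]
      · refine Finset.sum_congr rfl fun P _ => ?_
        rw [Finset.sum_const, nsmul_eq_mul, mul_one]
    rw [h2, h1, Mk, ← Finset.add_sum_erase _ _ hempty]
    congr 1
    · simp
    · refine Finset.sum_congr rfl fun S _ => ?_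
      simp
  · have h1 := CNE_swap hM G U (fun S => (S.card : ℝ)) hblock hst
    have h2 : (U.card : ℝ) * N G U = ∑ P ∈ col G U, ∑ S ∈ P, (S.card : ℝ) := by
      rw [Finset.sum_congr rfl fun P hP => CNE_sum_card (CNE_mem_col.mp hP), Finset.sum_const,
        nsmul_eq_mul, N, mul_comm]
    rw [h2, h1, Mk, ← Finset.add_sum_erase _ _ hempty]
    simp

end Pool.Agent.helper34.AC
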