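import Pool.Agent.helper34.AC.Spec3

set_option autoImplicit false

open Filter Topology

namespace Pool.Agent.helper34.AC

lemma D23_th_smul (a : ℝ) (P : Polynomial ℝ) :
    th (Polynomial.C a * P) = Polynomial.C a * th P := by
  unfold th
  rw [Polynomial.derivative_C_mul]
  ring

lemma D23_bounds {ι : Type} (s : Finset ι) (p : ι → ℝ) (h0 : ∀ i ∈ s, 0 ≤ p i)
    (h1 : ∀ i ∈ s, p i ≤ 1) :
    0 ≤ ∑ i ∈ s, p i ∧ 0 ≤ ∑ i ∈ s, p i * (1 - p i) ∧
    ∑ i ∈ s, p i * (1 - p i) ≤ ∑ i ∈ s, p i ∧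
    |∑ i ∈ s, p i * (1 - p i) * (1 - 2 * p i)| ≤ ∑ i ∈ s, p i * (1 - p i) ∧
    |∑ i ∈ s, p i * (1 - p i) * (1 - 6 * (p i * (1 - p i)))| ≤ ∑ i ∈ s, p i * (1 - p i) := by
  have hq : ∀ i ∈ s, 0 ≤ p i * (1 - p i) := fun i hi =>
    mul_nonneg (h0 i hi) (by linarith [h1 i hi])
  refine ⟨Finset.sum_nonneg h0, Finset.sum_nonneg hq, Finset.sum_le_sum ?_, ?_, ?_⟩
  · intro i hi
    nlinarith [h0 i hi, h1 i hi]
  · refine (Finset.abs_sum_le_sum_abs _ _).trans (Finset.sum_le_sum fun i hi => ?_)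
    rw [abs_mul, abs_of_nonneg (hq i hi)]
    refine mul_le_of_le_one_right (hq i hi) ?_
    rw [abs_le]
    constructor <;> linarith [h0 i hi, h1 i hi]
  · refine (Finset.abs_sum_le_sum_abs _ _).trans (Finset.sum_le_sum fun i hi => ?_)
    rw [abs_mul, abs_of_nonneg (hq i hi)]
    refine mul_le_of_le_one_right (hq i hi) ?_
    have h3 : p i * (1 - p i) ≤ 1 / 4 := by nlinarith [sq_nonneg (p i - 1 / 2)]
    rw [abs_le]
    constructor <;> linarith [hq i hi]

/-- moments -/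
lemma D23_mom (hR : RTS_stmt) (hT : TOB_stmt) (hC : CUM_stmt) (n : ℕ) :
    ∃ k1 k2 k3 k4 : ℝ, 0 ≤ k1 ∧ 0 ≤ k2 ∧ k2 ≤ k1 ∧ |k3| ≤ k2 ∧ |k4| ≤ k2 ∧
      bl (n + 1) = bl n * (k1 + 1) ∧
      bl (n + 2) = bl n * ((k1 ^ 2 + k2) + 2 * k1 + 2) ∧
      bl (n + 3) = bl n * ((k1 ^ 3 + 3 * k1 * k2 + k3) + 3 * (k1 ^ 2 + k2) + 6 * k1 + 5) ∧
      bl (n + 4) = bl n * ((k1 ^ 4 + 6 * k1 ^ 2 * k2 + 3 * k2 ^ 2 + 4 * k1 * k3 + k4) +
        4 * (k1 ^ 3 + 3 * k1 * k2 + k3) + 12 * (k1 ^ 2 + k2) + 20 * k1 + 15) := by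
  obtain ⟨r, hr0, hr⟩ := hR n
  set p : Fin n → ℝ := fun i => 1 / (1 + r i) with hp
  have hrp : ∀ i, 0 < 1 + r i := fun i => by linarith [hr0 i]
  have hp0 : ∀ i, 0 ≤ p i := fun i => by
    have := hrp i
    rw [hp]; positivity
  have hp1 : ∀ i, p i ≤ 1 := fun i => by
    simp only [hp]
    rw [div_le_one (hrp i)]
    linarith [hr0 i]
  set Q : Polynomial ℝ := ∏ i, (Polynomial.C (1 - p i) + Polynomial.C (p i) * Polynomial.X) with hQ
  have hfac : ∀ i, (Polynomial.X + Polynomial.C (r i)) =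
      Polynomial.C (1 + r i) * (Polynomial.C (1 - p i) + Polynomial.C (p i) * Polynomial.X) := by
    intro i
    have e1 : (1 + r i) * (1 - p i) = r i := by
      simp only [hp]
      have := (hrp i).ne'
      field_simp
      ring
    have e2 : (1 + r i) * p i = 1 := by
      simp only [hp]
      have := (hrp i).ne'
      field_simp
    rw [mul_add, ← mul_assoc, ← Polynomial.C_mul, ← Polynomial.C_mul, e1, e2, Polynomial.C_1, one_mul,
      add_comm]
  have hTou : Tou n = Polynomial.C (∏ i, (1 + r i)) * Q := by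
    rw [hr, Finset.prod_congr rfl fun i _ => hfac i, Finset.prod_mul_distrib, map_prod]
  obtain ⟨hc0, hc1, hc2, hc3, hc4⟩ := hC (Fin n) Finset.univ p Q _ _ _ _ hQ rfl rfl rfl rfl
  obtain ⟨ht0, ht1, ht2, ht3, ht4⟩ := hT
  have hbn : bl n = ∏ i, (1 + r i) := by
    have h1 := ht0 n
    rw [hTou, Polynomial.eval_mul, Polynomial.eval_C, hc0, mul_one] at h1
    exact h1.symm
  rw [← hbn] at hTou
  obtain ⟨b0, b1, b2, b3, b4⟩ := D23_bounds Finset.univ p (fun i _ => hp0 i) (fun i _ => hp1 i)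
  refine ⟨_, _, _, _, b0, b1, b2, b3, b4, ?_, ?_, ?_, ?_⟩
  · rw [ht1, hTou, D23_th_smul]
    simp only [Polynomial.eval_mul, Polynomial.eval_C]
    rw [hc0, hc1]
    ring
  · rw [ht2, hTou]
    simp only [D23_th_smul, Polynomial.eval_mul, Polynomial.eval_C]
    rw [hc0, hc1, hc2]
    ring
  · rw [ht3, hTou]
    simp only [D23_th_smul, Polynomial.eval_mul, Polynomial.eval_C]
    rw [hc0, hc1, hc2, hc3]
    ring
  · rw [ht4, hTou]
    simp only [D23_th_smul, Polynomial.eval_mul, Polynomial.eval_C]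
    rw [hc0, hc1, hc2, hc3, hc4]
    ring

lemma D23_fin {h X b c y y' w : ℝ} (hh : 1 ≤ h) (hX0 : 0 < X) (hX1 : X ≤ 1) (hb0 : 0 < b)
    (hb : b ≤ 2) (hc0 : 0 < c) (hc : c ≤ 3) (hy : h * |y| ≤ 3) (hy' : h * |y'| ≤ 3)
    (u : |h ^ 2 * w + h * (-6 * X * y - 3 * X * y' + 2 * y ^ 2 + y * y') + X * b * c| ≤ X) :
    |w| * h ^ 2 ≤ 61 := by
  have hp : 0 < h := by linarith
  have v3 : |y| ≤ 3 := by nlinarith [abs_nonneg y]
  have v4 : |y'| ≤ 3 := by nlinarith [abs_nonneg y']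
  have a1 : 0 ≤ |y| := abs_nonneg y
  have a2 : 0 ≤ |y'| := abs_nonneg y'
  have w5 : X * b * c ≤ 6 := by
    have h6 : X * b ≤ 2 := by nlinarith
    have h7 : 0 < X * b := mul_pos hX0 hb0
    nlinarith
  have w6 : 0 ≤ X * b * c := by positivity
  have t1 : |(-6 * X) * (h * y)| ≤ 18 := by
    rw [abs_mul, abs_mul h, abs_of_pos hp, abs_mul, abs_of_pos hX0]
    have : |(-6 : ℝ)| = 6 := by norm_num
    rw [this]
    nlinarith [mul_nonneg hp.le a1]
  have t2 : |(-3 * X) * (h * y')| ≤ 9 := by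
    rw [abs_mul, abs_mul h, abs_of_pos hp, abs_mul, abs_of_pos hX0]
    have : |(-3 : ℝ)| = 3 := by norm_num
    rw [this]
    nlinarith [mul_nonneg hp.le a2]
  have t3 : |(h * y) * y| ≤ 9 := by
    rw [abs_mul, abs_mul h, abs_of_pos hp]
    nlinarith [mul_nonneg hp.le a1]
  have t4 : |(h * y) * y'| ≤ 9 := by
    rw [abs_mul, abs_mul h, abs_of_pos hp]
    nlinarith [mul_nonneg hp.le a1]
  have id3 : h ^ 2 * w = (h ^ 2 * w + h * (-6 * X * y - 3 * X * y' + 2 * y ^ 2 + y * y') + X * b * c)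
      - ((-6 * X) * (h * y) + (-3 * X) * (h * y') + 2 * ((h * y) * y) + (h * y) * y') - X * b * c := by
    ring
  have fin : |h ^ 2 * w| ≤ 61 := by
    rw [id3]
    generalize (h ^ 2 * w + h * (-6 * X * y - 3 * X * y' + 2 * y ^ 2 + y * y') + X * b * c) = Z at u ⊢
    generalize (-6 * X) * (h * y) = A at t1 ⊢
    generalize (-3 * X) * (h * y') = B at t2 ⊢
    generalize (h * y) * y = D at t3 ⊢
    generalize (h * y) * y' = E at t4 ⊢
    generalize X * b * c = G at w5 w6 ⊢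
    rw [abs_le] at u t1 t2 t3 t4 ⊢
    constructor <;> linarith [u.1, u.2, t1.1, t1.2, t2.1, t2.2, t3.1, t3.2, t4.1, t4.2]
  rw [abs_mul, abs_of_pos (pow_pos hp 2)] at fin
  linarith [mul_comm (|w|) (h ^ 2)]

theorem D23 (hR : RTS_stmt) (hT : TOB_stmt) (hC : CUM_stmt) (hB : BRC_stmt) : D23_stmt := by
  have hpos : ∀ m : ℕ, 0 < bl m := hB.2.2.2.2.2.1
  have hgb : ∀ m, bl (m + 1) = bl m * gb m := by
    intro m
    rw [gb]
    field_simp [(hpos m).ne']
  -- first differences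
  have key1 : ∀ n : ℕ, 1 ≤ gb n ∧ 1 ≤ gb n * xx (n + 1) ∧ 0 < xx (n + 1) ∧ xx (n + 1) ≤ 1 := by
    intro n
    obtain ⟨k1, k2, k3, k4, h1, h2, h3, h4, h5, e1, e2, e3, e4⟩ := D23_mom hR hT hC n
    have hb := hpos n
    have g0 : gb n = k1 + 1 := by
      have := hgb n
      rw [e1] at this
      exact (mul_left_cancel₀ hb.ne' this).symm
    have g1 : gb n * gb (n + 1) = (k1 ^ 2 + k2) + 2 * k1 + 2 := by
      have h6 := hgb (n + 1)
      rw [hgb n] at h6
      have h7 : bl (n + 1 + 1) = bl (n + 2) := rfl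
      rw [h7, e2, mul_assoc] at h6
      exact (mul_left_cancel₀ hb.ne' h6).symm
    have hx : gb n * xx (n + 1) = 1 + k2 := by
      rw [xx, Nat.add_sub_cancel, mul_sub, g1, g0]
      ring
    have hg1 : 1 ≤ gb n := by linarith
    refine ⟨hg1, by linarith, ?_, ?_⟩
    · by_contra hneg
      push Not at hneg
      nlinarith
    · by_contra hneg
      push Not at hneg
      nlinarith
  have hxx : ∀ n, gb (n + 1) = gb n + xx (n + 1) := by
    intro n
    rw [xx, Nat.add_sub_cancel]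
    ring
  have hyy : ∀ n, yy (n + 2) = xx (n + 1) - xx (n + 2) := by
    intro n
    have e1 : n + 2 - 1 = n + 1 := rfl
    have e2 : n + 2 - 2 = n := rfl
    have e3 : n + 1 - 1 = n := rfl
    rw [yy, xx, xx, e1, e2, e3]
    ring
  have hww : ∀ n, ww (n + 3) = yy (n + 2) - yy (n + 3) := by
    intro n
    rw [ww, yy, yy]
    have e1 : n + 3 - 1 = n + 2 := rfl
    have e2 : n + 3 - 2 = n + 1 := rfl
    have e3 : n + 3 - 3 = n := rfl
    have e4 : n + 2 - 1 = n + 1 := rfl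
    have e5 : n + 2 - 2 = n := rfl
    rw [e1, e2, e3, e4, e5]
    ring
  -- second differences
  have key2 : ∀ n : ℕ, |yy (n + 2)| * gb n ≤ 3 := by
    intro n
    obtain ⟨k1, k2, k3, k4, h1, h2, h3, h4, h5, e1, e2, e3, e4⟩ := D23_mom hR hT hC n
    have hb := hpos n
    have a0 := hgb n
    have a1 := hgb (n + 1)
    have a2 := hgb (n + 2)
    have e1' : bl (n + 1 + 1) = bl (n + 2) := rfl
    have e2' : bl (n + 2 + 1) = bl (n + 3) := rfl
    rw [e1'] at a1
    rw [e2'] at a2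
    set h := gb n with hh
    set X := xx (n + 1) with hX
    set X' := xx (n + 2) with hX'
    have g1 : gb (n + 1) = h + X := hxx n
    have g2 : gb (n + 2) = h + X + X' := by rw [hxx (n + 1), g1]
    rw [g1] at a1
    rw [g2] at a2
    have c0 : h = k1 + 1 := by
      rw [e1] at a0
      exact (mul_left_cancel₀ hb.ne' a0).symm
    have c1 : h * (h + X) = (k1 ^ 2 + k2) + 2 * k1 + 2 := by
      rw [a0, e2, mul_assoc] at a1
      exact (mul_left_cancel₀ hb.ne' a1).symm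
    have c2 : h * (h + X) * (h + X + X') = (k1 ^ 3 + 3 * k1 * k2 + k3) + 3 * (k1 ^ 2 + k2) + 6 * k1 + 5 := by
      have a1' : bl (n + 2) = bl n * (h * (h + X)) := by rw [a1, a0]; ring
      refine mul_left_cancel₀ hb.ne' ?_
      linear_combination e3 - a2 - (h + X + X') * a1'
    obtain ⟨d0, d1, d2, d3⟩ := key1 n
    obtain ⟨f0, f1, f2, f3⟩ := key1 (n + 1)
    change 0 < X' at f2
    change X' ≤ 1 at f3
    rw [hyy n]
    have hkx : h * X = 1 + k2 := by
      rw [c0] at c1 ⊢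
      linear_combination c1
    have hk3 : h * (X * (X + X') - h * (X - X')) = 1 + k3 := by
      rw [c0] at c1 c2 ⊢
      linear_combination c2 - 3 * (k1 + 1) * c1
    have hab := abs_le.mp h4
    have u1 : |h * (X * (X + X') - h * (X - X'))| ≤ h * X := by
      rw [hk3, hkx, abs_le]
      constructor <;> linarith [hab.1, hab.2]
    rw [abs_mul, abs_of_pos (by linarith : (0:ℝ) < h)] at u1
    have u2 : |X * (X + X') - h * (X - X')| ≤ X := le_of_mul_le_mul_left u1 (by linarith)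
    have u3 := abs_le.mp u2
    have u4 : |h * (X - X')| ≤ 3 := by
      have h0 : X * (X + X') ≤ 2 := by nlinarith
      have h0' : 0 ≤ X * (X + X') := by positivity
      rw [abs_le]
      constructor <;> nlinarith [u3.1, u3.2]
    rw [abs_mul, abs_of_pos (by linarith : (0:ℝ) < h)] at u4
    linarith [mul_comm (|X - X'|) h]
  have hmono : ∀ m n : ℕ, m ≤ n → gb m ≤ gb n := by
    intro m n hmn
    refine monotone_nat_of_le_succ (fun k => ?_) hmn
    rw [hxx k]
    linarith [(key1 k).2.2.1]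
  refine ⟨fun n => ⟨(key1 n).2.2.1, (key1 n).2.2.2⟩, key2, ?_, hmono⟩
  intro n
  obtain ⟨k1, k2, k3, k4, h1, h2, h3, h4, h5, e1, e2, e3, e4⟩ := D23_mom hR hT hC n
  have hb := hpos n
  have a0 := hgb n
  have a1 := hgb (n + 1)
  have a2 := hgb (n + 2)
  have a3 := hgb (n + 3)
  have e1' : bl (n + 1 + 1) = bl (n + 2) := rfl
  have e2' : bl (n + 2 + 1) = bl (n + 3) := rfl
  have e3' : bl (n + 3 + 1) = bl (n + 4) := rfl
  rw [e1'] at a1
  rw [e2'] at a2
  rw [e3'] at a3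
  have y1 := key2 n
  have y2 := key2 (n + 1)
  have m1 := hmono n (n + 1) (by omega)
  have y2' : |yy (n + 3)| * gb n ≤ 3 :=
    (mul_le_mul_of_nonneg_left m1 (abs_nonneg _)).trans y2
  rw [hww n]
  have hy1 := hyy n
  have hy2 : yy (n + 3) = xx (n + 2) - xx (n + 3) := hyy (n + 1)
  set h := gb n with hh
  set X := xx (n + 1) with hX
  set X' := xx (n + 2) with hX'
  set X'' := xx (n + 3) with hX''
  set y := yy (n + 2) with hy
  set y' := yy (n + 3) with hy'
  have g1 : gb (n + 1) = h + X := hxx n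
  have g2 : gb (n + 2) = h + X + X' := by rw [hxx (n + 1), g1]
  have g3 : gb (n + 3) = h + X + X' + X'' := by rw [hxx (n + 2), g2]
  rw [g1] at a1
  rw [g2] at a2
  rw [g3] at a3
  have c0 : h = k1 + 1 := by
    rw [e1] at a0
    exact (mul_left_cancel₀ hb.ne' a0).symm
  have c1 : h * (h + X) = (k1 ^ 2 + k2) + 2 * k1 + 2 := by
    rw [a0, e2, mul_assoc] at a1
    exact (mul_left_cancel₀ hb.ne' a1).symm
  have c2 : h * (h + X) * (h + X + X') = (k1 ^ 3 + 3 * k1 * k2 + k3) + 3 * (k1 ^ 2 + k2) + 6 * k1 + 5 := by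
    have a1' : bl (n + 2) = bl n * (h * (h + X)) := by rw [a1, a0]; ring
    refine mul_left_cancel₀ hb.ne' ?_
    linear_combination e3 - a2 - (h + X + X') * a1'
  have c3 : h * (h + X) * (h + X + X') * (h + X + X' + X'') =
      (k1 ^ 4 + 6 * k1 ^ 2 * k2 + 3 * k2 ^ 2 + 4 * k1 * k3 + k4) +
        4 * (k1 ^ 3 + 3 * k1 * k2 + k3) + 12 * (k1 ^ 2 + k2) + 20 * k1 + 15 := by
    have a2' : bl (n + 3) = bl n * (h * (h + X) * (h + X + X')) := by rw [a2, a1, a0]; ring
    refine mul_left_cancel₀ hb.ne' ?_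
    linear_combination e4 - a3 - (h + X + X' + X'') * a2'
  obtain ⟨d0, d1, d2, d3⟩ := key1 n
  obtain ⟨f0, f1, f2, f3⟩ := key1 (n + 1)
  obtain ⟨g0', g1', g2', g3'⟩ := key1 (n + 2)
  change 0 < X' at f2
  change X' ≤ 1 at f3
  change 0 < X'' at g2'
  change X'' ≤ 1 at g3'
  have hkx : h * X = 1 + k2 := by
    rw [c0] at c1 ⊢
    linear_combination c1
  have hX'e : X' = X - y := by linarith
  have hX''e : X'' = X' - y' := by linarith
  set b := X + X' with hbdef
  set c := X + X' + X'' with hcdef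
  have hk4 : h * (h ^ 2 * (y - y') + h * (b * c + c * X - 3 * X * b - 3 * X ^ 2) + X * b * c) = 1 + k4 := by
    have E1 : h = 1 + k1 := by linarith
    have E2 : h * (h + X) = (1 + k1) ^ 2 + 1 + k2 := by linear_combination c1
    have E3 := c2
    have E4 := c3
    have id1 : h * (h ^ 2 * (y - y') + h * (b * c + c * X - 3 * X * b - 3 * X ^ 2) + X * b * c) =
        h * (h + X) * (h + X + X') * (h + X + X' + X'') - 4 * (h * (h + X) * (h + X + X')) * h
          - 3 * (h * (h + X)) ^ 2 + 12 * (h * (h + X)) * h ^ 2 - 6 * h ^ 4 := by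
      rw [hbdef, hcdef]
      have ey : y = X - X' := by linarith
      have ey' : y' = X' - X'' := by linarith
      rw [ey, ey']
      ring
    rw [id1, E4, E3, E2, E1]
    ring
  have hab := abs_le.mp h5
  have u1 : |h * (h ^ 2 * (y - y') + h * (b * c + c * X - 3 * X * b - 3 * X ^ 2) + X * b * c)| ≤ h * X := by
    rw [hk4, hkx, abs_le]
    constructor <;> linarith [hab.1, hab.2]
  have hhp : (0 : ℝ) < h := by linarith
  rw [abs_mul, abs_of_pos hhp] at u1
  have u2 : |h ^ 2 * (y - y') + h * (b * c + c * X - 3 * X * b - 3 * X ^ 2) + X * b * c| ≤ X :=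
    le_of_mul_le_mul_left u1 hhp
  have id2 : b * c + c * X - 3 * X * b - 3 * X ^ 2 = -6 * X * y - 3 * X * y' + 2 * y ^ 2 + y * y' := by
    rw [hbdef, hcdef, hX''e, hX'e]
    ring
  have hb2 : b ≤ 2 := by rw [hbdef]; linarith
  have hb0 : 0 < b := by rw [hbdef]; linarith
  have hc3 : c ≤ 3 := by rw [hcdef]; linarith
  have hc0 : 0 < c := by rw [hcdef]; linarith
  rw [id2] at u2
  rw [mul_comm] at y1 y2'
  exact D23_fin d0 d2 d3 hb0 hb2 hc0 hc3 y1 y2' u2

end Pool.Agent.helper34.AC
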