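import Pool.Agent.helper34.AC.Spec4

set_option autoImplicit false

open Filter Topology

namespace Pool.Agent.helper34.AC

lemma ZER_empty_mem {V : Type} (G : SimpleGraph V) (X R : Finset V) : ∅ ∈ st G X R := by
  classical
  rw [st, Finset.mem_filter, Finset.mem_powerset]
  exact ⟨Finset.empty_subset _, fun x hx => absurd hx (Finset.notMem_empty x)⟩

lemma ZER_N_nonneg {V : Type} (G : SimpleGraph V) (R : Finset V) : 0 ≤ N G R := by
  rw [N]; positivity

lemma ZER_var {V : Type} [DecidableEq V] (G : SimpleGraph V) (X R : Finset V) (μ : ℝ) :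
    μ ^ 2 * N G R ≤ Mk G X R 2 + Mk G X R 1 - 2 * μ * Mk G X R 1 + μ ^ 2 * Mk G X R 0 := by
  have h1 : Mk G X R 2 + Mk G X R 1 - 2 * μ * Mk G X R 1 + μ ^ 2 * Mk G X R 0 =
      ∑ S ∈ st G X R, ((S.card : ℝ) - μ) ^ 2 * N G (R \ S) := by
    simp only [Mk, Finset.mul_sum]
    rw [← Finset.sum_add_distrib, ← Finset.sum_sub_distrib, ← Finset.sum_add_distrib]
    refine Finset.sum_congr rfl fun S _ => ?_
    rw [Nat.cast_descFactorial_two, Nat.descFactorial_one, Nat.descFactorial_zero, Nat.cast_one]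
    ring
  rw [h1]
  have h2 := Finset.single_le_sum (f := fun S => ((S.card : ℝ) - μ) ^ 2 * N G (R \ S))
    (fun S _ => mul_nonneg (sq_nonneg _) (ZER_N_nonneg G _)) (ZER_empty_mem G X R)
  simpa using h2

lemma ZER_le {V : Type} [DecidableEq V] (G : SimpleGraph V) (X R : Finset V) :
    N G R ≤ Mk G X R 0 := by
  have h2 := Finset.single_le_sum (f := fun S => ((S.card.descFactorial 0 : ℕ) : ℝ) * N G (R \ S))
    (fun S _ => mul_nonneg (by positivity) (ZER_N_nonneg G _)) (ZER_empty_mem G X R)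
  simpa [Mk] using h2

theorem ZER (hF : FM2_stmt) (hR : RCN_stmt) (hO : OMF_stmt) : ZER_stmt := by
  obtain ⟨-, -, -, hgt, hot, -⟩ := hO
  obtain ⟨M, hM⟩ := ((hgt.eventually_ge_atTop 1).and (hot.eventually_ge_atTop 4)).exists_forall_of_atTop
  refine ⟨M, ?_⟩
  intro m hm V _ G U a o hU ha hmono hOm hom hlow
  obtain ⟨hg, hω⟩ := hM m hm
  have hcard : (U.erase a).card = m := by
    rw [Finset.card_erase_of_mem ha, hU]
    rfl
  have h0 := (hR V G U a ha).1
  have h1 := hF V G {a} (U.erase a) o 1 hmono hOm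
  rw [hcard] at h1
  change Mk G {a} (U.erase a) 2 ≤ o m * Mk G {a} (U.erase a) 1 at h1
  have hle := ZER_le G {a} (U.erase a)
  rw [← h0] at hle
  have hn0 := ZER_N_nonneg G (U.erase a)
  have hnU := ZER_N_nonneg G U
  have hωp : 0 < om m := by linarith
  rcases hnU.eq_or_lt with hz | hpos
  · rw [← hz] at hle ⊢
    linarith
  have hv := ZER_var G {a} (U.erase a) (Mk G {a} (U.erase a) 1 / N G U)
  rw [← h0] at hv
  set A := Mk G {a} (U.erase a) 1 with hA
  set n := N G U with hn
  set μ := A / n with hμ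
  have hAμ : A = μ * n := by rw [hμ]; field_simp
  have hμlow : om m - 1 ≤ μ := by
    rw [hμ, le_div_iff₀ hpos]
    exact hlow
  have hμpos : 0 < μ := by linarith
  have hApos : 0 < A := by rw [hAμ]; positivity
  have hg1 : 1 / gb m ≤ 1 := by
    rw [div_le_one (by linarith)]
    exact hg
  -- main inequality
  have k1 : μ ^ 2 * N G (U.erase a) ≤ 3 * A := by
    have e1 : A - 2 * μ * A + μ ^ 2 * n = A - μ * A := by
      rw [hAμ]; ring
    have e2 : Mk G {a} (U.erase a) 2 + A - 2 * μ * A + μ ^ 2 * n ≤ o m * A + A - μ * A := by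
      linarith
    have e3 : o m * A + A - μ * A ≤ 3 * A := by
      have : o m + 1 - μ ≤ 3 := by linarith
      nlinarith
    linarith
  have k2 : μ * N G (U.erase a) ≤ 3 * n := by
    have e4 : μ * (μ * N G (U.erase a)) ≤ μ * (3 * n) := by
      calc μ * (μ * N G (U.erase a)) = μ ^ 2 * N G (U.erase a) := by ring
        _ ≤ 3 * A := k1
        _ = μ * (3 * n) := by rw [hAμ]; ring
    exact le_of_mul_le_mul_left e4 hμpos
  rw [div_mul_eq_mul_div, le_div_iff₀ hωp]
  have k3 : 3 / 4 * om m ≤ μ := by linarith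
  have k4 : 3 / 4 * om m * N G (U.erase a) ≤ 3 * n :=
    (mul_le_mul_of_nonneg_right k3 hn0).trans k2
  linarith

end Pool.Agent.helper34.AC
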